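import Pool.Agent.H90.SY.LG.Sc

set_option autoImplicit false

/-!
Local-to-global for graphs whose flag complex is locally 6-large (cliques of any size allowed).
The definitions `Lev`, `IsCand`, `Cand`, `rl`, `nxt`, `bot`, `Lv`, `YY`, `phi`, `PR`, `EE`, `Cov` of
Pool/Agent/H90/SY/LG/Defs.lean are used again; only the local conditions and the invariants
are weaker.
-/

namespace Pool.H90TC

open Pool.H90SY

universe u

variable {V : Type u}

/-- Locally 6-large: in the link of every vertex `z` every 4-cycle and every 5-cycle has a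
chord. -/
structure Loc6 (G : SimpleGraph V) : Prop where
  c4 : ∀ z a b c d : V, G.Adj z a → G.Adj z b → G.Adj z c → G.Adj z d →
    G.Adj a b → G.Adj b c → G.Adj c d → G.Adj d a → a ≠ c → b ≠ d → G.Adj a c ∨ G.Adj b d
  c5 : ∀ z a b c d e : V, G.Adj z a → G.Adj z b → G.Adj z c → G.Adj z d → G.Adj z e →
    G.Adj a b → G.Adj b c → G.Adj c d → G.Adj d e → G.Adj e a →
    a ≠ c → a ≠ d → b ≠ d → b ≠ e → c ≠ e →
    G.Adj a c ∨ G.Adj a d ∨ G.Adj b d ∨ G.Adj b e ∨ G.Adj c e

/-- the invariants of a level -/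
structure Good6 (G : SimpleGraph V) (L : Lev V) : Prop where
  lat_symm : ∀ y z : L.Y, L.lat y z → L.lat z y
  lat_adj : ∀ y z : L.Y, L.lat y z → G.Adj (L.ph y) (L.ph z)
  dn_adj : ∀ (y : L.Y) (d : V), d ∈ L.dn y → G.Adj (L.ph y) d
  dn_clique : ∀ (y : L.Y) (d e : V), d ∈ L.dn y → e ∈ L.dn y → d ≠ e → G.Adj d e
  lat_common : ∀ y z : L.Y, L.lat y z → ∃ d : V, d ∈ L.dn y ∧ d ∈ L.dn z
  lat_exists : ∀ (y : L.Y) (v d : V), G.Adj (L.ph y) v → v ∉ L.dn y → d ∈ L.dn y → G.Adj d v →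
    ∃ z : L.Y, L.lat y z ∧ L.ph z = v
  lat_unique : ∀ y z w : L.Y, L.lat y z → L.lat y w → L.ph z = L.ph w → z = w
  lat_not_dn : ∀ y z : L.Y, L.lat y z → L.ph z ∉ L.dn y
  lat_tri : ∀ y z w : L.Y, L.lat y z → L.lat y w → G.Adj (L.ph z) (L.ph w) → L.lat z w
  dn_share : ∀ (y z : L.Y) (u : V), L.lat y z → u ∈ L.dn z → G.Adj (L.ph y) u → u ∈ L.dn y

/-- Every connected covering of the flag complex of `G` is injective. -/
def ScInj (G : SimpleGraph V) : Prop :=
  ∀ (W : Type u) (f : W → V) (E : W → W → Prop), Cov G W f E → ∀ w0 a b : W,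
    Relation.ReflTransGen E w0 a → Relation.ReflTransGen E w0 b → f a = f b → a = b

theorem scInj_of_simplyConn {G : SimpleGraph V} (h : SimplyConn G) : ScInj G :=
  fun _ _ _ hC w0 a b ha hb hab => cov_inj h hC w0 a b ha hb hab

/-- The conclusion: parents form a clique, adjacent vertices of the same level have a common
parent. -/
structure Lay6 (G : SimpleGraph V) (x0 : V) : Prop where
  conn : G.Connected
  cl : ∀ v u w : V, G.Adj v u → G.Adj v w → G.dist x0 u + 1 = G.dist x0 v →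
    G.dist x0 w + 1 = G.dist x0 v → u ≠ w → G.Adj u w
  tc : ∀ v w : V, G.Adj v w → G.dist x0 v = G.dist x0 w →
    ∃ p : V, G.Adj p v ∧ G.Adj p w ∧ G.dist x0 p + 1 = G.dist x0 v

end Pool.H90TC
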