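import Pool.Agent.H90.TC.L6.CovY

set_option autoImplicit false

/-!
Proof as in Pool/Agent/H90/SY/LG/LayY.lean (copy it), with `ScInj` instead of `cov_inj` and
`mk_eq6` instead of `mk_eq`.
-/

namespace Pool.H90TC

open Pool.H90SY

universe u

variable {V : Type u}

/-- every element of the layered covering is reachable from the base point -/
private theorem LayY6_reach (G : SimpleGraph V) (x0 : V) (n : ℕ) (y : (Lv G x0 n).Y) :
    Relation.ReflTransGen (EE G x0) (⟨0, PUnit.unit⟩ : YY G x0) ⟨n, y⟩ := by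
  induction n with
  | zero => exact Relation.ReflTransGen.refl
  | succ n ih =>
    obtain ⟨p, rfl⟩ := Quot.exists_rep (r := rl G (Lv G x0 n)) y
    have h : PR G (Lv G x0 n) p.1.1 (Quot.mk (rl G (Lv G x0 n)) p) := ⟨p, rfl, rfl⟩
    exact (ih p.1.1).tail (EE.up h)

/-- `EE` changes the level by at most one -/
private theorem LayY6_lev {G : SimpleGraph V} {x0 : V} {a b : YY G x0} (h : EE G x0 a b) :
    b.1 ≤ a.1 + 1 := by
  cases h with
  | lat _ => exact Nat.le_succ _
  | up _ => exact le_rfl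
  | dn _ => exact Nat.le_of_lt (Nat.lt_succ_of_lt (Nat.lt_succ_self _))

private theorem LayY6_lat {G : SimpleGraph V} {x0 : V} {n : ℕ} {y : (Lv G x0 n).Y} {b : YY G x0}
    (h : EE G x0 ⟨n, y⟩ b) (hb : b.1 = n) : ∃ z, b = ⟨n, z⟩ ∧ (Lv G x0 n).lat y z := by
  cases h with
  | lat h => exact ⟨_, rfl, h⟩
  | up _ => exact absurd hb (Nat.succ_ne_self _)
  | dn _ => exact absurd hb.symm (Nat.succ_ne_self _)

private theorem LayY6_dn {G : SimpleGraph V} {x0 : V} {n : ℕ} {y : (Lv G x0 (n + 1)).Y}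
    {b : YY G x0} (h : EE G x0 ⟨n + 1, y⟩ b) (hb : b.1 = n) :
    ∃ z, b = ⟨n, z⟩ ∧ PR G (Lv G x0 n) z y := by
  cases h with
  | lat _ => exact absurd hb (Nat.succ_ne_self _)
  | up _ =>
    have hb' : n + 1 + 1 = n := hb
    omega
  | dn h => exact ⟨_, rfl, h⟩

theorem lay6_of_sc (G : SimpleGraph V) (hc : G.Connected) (H : Loc6 G) (hsc : ScInj G)
    (x0 : V) : Lay6 G x0 := by
  have hC := cov_YY6 H x0
  have hinj : ∀ a b : YY G x0, phi G x0 a = phi G x0 b → a = b := fun a b hab =>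
    hsc _ _ _ hC ⟨0, PUnit.unit⟩ a b (LayY6_reach G x0 a.1 a.2) (LayY6_reach G x0 b.1 b.2) hab
  have hsurj : ∀ v : V, ∃ a : YY G x0, phi G x0 a = v := by
    intro v
    have hr : Relation.ReflTransGen G.Adj x0 v :=
      (SimpleGraph.reachable_iff_reflTransGen x0 v).1 (hc.preconnected x0 v)
    induction hr with
    | refl => exact ⟨⟨0, PUnit.unit⟩, rfl⟩
    | tail _ hbc ih =>
      obtain ⟨a, ha⟩ := ih
      obtain ⟨b, _, hb⟩ := hC.ex a _ (ha.symm ▸ hbc)
      exact ⟨b, hb⟩
  choose s hs using hsurj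
  have hsp : ∀ a : YY G x0, s (phi G x0 a) = a := fun a => hinj _ _ (hs _)
  have hadj : ∀ v w : V, G.Adj v w → EE G x0 (s v) (s w) := by
    intro v w hvw
    obtain ⟨b, hb, hbw⟩ := hC.ex (s v) w ((hs v).symm ▸ hvw)
    have : b = s w := hinj _ _ (by rw [hbw, hs])
    rwa [← this]
  have hle : ∀ (n : ℕ) (y : (Lv G x0 n).Y), G.dist x0 (phi G x0 ⟨n, y⟩) ≤ n := by
    intro n
    induction n with
    | zero =>
      intro y
      have e : phi G x0 ⟨0, y⟩ = x0 := rfl
      rw [e, SimpleGraph.dist_self]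
    | succ n ih =>
      intro y
      obtain ⟨p, rfl⟩ := Quot.exists_rep (r := rl G (Lv G x0 n)) y
      have h : PR G (Lv G x0 n) p.1.1 (Quot.mk (rl G (Lv G x0 n)) p) := ⟨p, rfl, rfl⟩
      have h1 := hC.adj _ _ (EE.up h)
      have h2 := hc.dist_triangle (u := x0) (v := phi G x0 ⟨n, p.1.1⟩)
        (w := phi G x0 ⟨n + 1, Quot.mk (rl G (Lv G x0 n)) p⟩)
      have h3 := SimpleGraph.dist_eq_one_iff_adj.2 h1
      have h4 := ih p.1.1
      omega
  have hwalk : ∀ {u v : V} (p : G.Walk u v), (s v).1 ≤ (s u).1 + p.length := by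
    intro u v p
    induction p with
    | nil => exact le_rfl
    | cons h q ih =>
      have h1 := LayY6_lev (hadj _ _ h)
      rw [SimpleGraph.Walk.length_cons]
      omega
  have hs0 : (s x0).1 = 0 := by
    have : s x0 = ⟨0, PUnit.unit⟩ := hsp ⟨0, PUnit.unit⟩
    rw [this]
  have hd : ∀ v : V, G.dist x0 v = (s v).1 := by
    intro v
    apply le_antisymm
    · have h1 := hle (s v).1 (s v).2
      have h2 : phi G x0 ⟨(s v).1, (s v).2⟩ = v := hs v
      rwa [h2] at h1
    · obtain ⟨p, hp⟩ := hc.exists_walk_length_eq_dist x0 v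
      have h1 := hwalk p
      rw [hs0, hp] at h1
      omega
  have hda : ∀ a : YY G x0, G.dist x0 (phi G x0 a) = a.1 := by
    intro a
    rw [hd, hsp]
  refine ⟨hc, ?_, ?_⟩
  · intro v u w hvu hvw hu hw huw
    have hEu := hadj v u hvu
    have hEw := hadj v w hvw
    rw [hd, hd] at hu hw
    have hv := hs v
    have hsu := hs u
    have hsw := hs w
    revert hEu hEw hu hw hv
    generalize s v = a
    obtain ⟨m, y⟩ := a
    intro hu hw hEu hEw hv
    cases m with
    | zero => exact absurd hu (Nat.succ_ne_zero _)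
    | succ n =>
      obtain ⟨z1, hz1, hp1⟩ := LayY6_dn hEu (Nat.succ.inj hu)
      obtain ⟨z2, hz2, hp2⟩ := LayY6_dn hEw (Nat.succ.inj hw)
      obtain ⟨p, hp, hpz⟩ := hp1
      obtain ⟨q, hq, hqz⟩ := hp2
      rw [hz1] at hsu
      rw [hz2] at hsw
      have hsu' : (Lv G x0 n).ph z1 = u := hsu
      have hsw' : (Lv G x0 n).ph z2 = w := hsw
      have hr := (mk_eq6 H (good6_Lv H x0 n) p q).1 (hp.trans hq.symm)
      rcases hr.2 with h | h
      · exfalso
        apply huw
        rw [← hsu', ← hsw', ← hpz, ← hqz, h]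
      · have h1 := (good6_Lv H x0 n).lat_adj _ _ h
        rw [hpz, hqz, hsu', hsw'] at h1
        exact h1
  · intro v w hvw hdv
    have hE := hadj v w hvw
    rw [hd, hd] at hdv
    have hv := hs v
    have hsw := hs w
    rw [hd]
    revert hE hdv hv
    generalize s v = a
    obtain ⟨m, y⟩ := a
    intro hdv hE hv
    obtain ⟨z, hz, hl⟩ := LayY6_lat hE hdv.symm
    rw [hz] at hsw
    cases m with
    | zero => exact absurd hl id
    | succ n =>
      obtain ⟨p, q, hp, hq, hpq, hadj'⟩ := hl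
      have hpv : p.1.2 = v := by
        rw [← hv, ← hp]; rfl
      have hqw : q.1.2 = w := by
        rw [← hsw, ← hq]; rfl
      refine ⟨phi G x0 ⟨n, p.1.1⟩, ?_, ?_, ?_⟩
      · rw [← hpv]; exact p.2.1
      · rw [← hqw, hpq]; exact q.2.1
      · exact congrArg Nat.succ (hda ⟨n, p.1.1⟩)


end Pool.H90TC
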