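import Pool.Agent.H90.TC.L6.Nxt

set_option autoImplicit false

/-!
Proof as in Pool/Agent/H90/SY/LG/CovY.lean (copy it). The only new case of `tri`: two lateral
neighbours `b, c` of `⟨n,y⟩` with adjacent images are lateral neighbours by `lat_tri` (in the special
case this was impossible). The case parent, parent: `mk_eq6`: equal or lateral.
-/

namespace Pool.H90TC

open Pool.H90SY

universe u

variable {V : Type u}

private theorem pr_ph {G : SimpleGraph V} {L : Lev V} {z : L.Y} {y : (nxt G L).Y}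
    (h : PR G L z y) : L.ph z ∈ (nxt G L).dn y := by
  obtain ⟨p, h1, h2⟩ := h
  exact ⟨p, h1, by rw [h2]⟩

private theorem pr_cand {G : SimpleGraph V} {L : Lev V} {z : L.Y} {y : (nxt G L).Y}
    (h : PR G L z y) : IsCand G L z ((nxt G L).ph y) := by
  obtain ⟨p, h1, h2⟩ := h
  subst h1
  subst h2
  exact p.2

private theorem lat_adj_dn {G : SimpleGraph V} {L : Lev V} (hL : Good6 G L) {y z : L.Y}
    (h : L.lat y z) : ∃ d ∈ L.dn y, G.Adj d (L.ph z) := by
  obtain ⟨d, h1, h2⟩ := hL.lat_common y z h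
  exact ⟨d, h1, (hL.dn_adj z d h2).symm⟩

/-- two parents -/
private theorem tri_pp {G : SimpleGraph V} (H : Loc6 G) {L : Lev V} (hL : Good6 G L)
    {z w : L.Y} {y : (nxt G L).Y} (hz : PR G L z y) (hw : PR G L w y) : z = w ∨ L.lat z w := by
  obtain ⟨p, h1, h2⟩ := hz
  obtain ⟨q, h3, h4⟩ := hw
  have h5 := (mk_eq6 H hL p q).1 (h1.trans h3.symm)
  rw [← h2, ← h4]
  exact h5.2

/-- parent and lateral -/
private theorem tri_pl {G : SimpleGraph V} (H : Loc6 G) {L : Lev V} (hL : Good6 G L)
    {z : L.Y} {y w : (nxt G L).Y} (hz : PR G L z y) (hw : (nxt G L).lat y w)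
    (ha : G.Adj (L.ph z) ((nxt G L).ph w)) : PR G L z w := by
  obtain ⟨r, h1, h2⟩ := hz
  obtain ⟨p, q, h3, h4, h5, h6⟩ := hw
  have h7 := (mk_eq6 H hL r p).1 (h1.trans h3.symm)
  subst h4
  subst h2
  rcases h7.2 with h8 | h8
  · exact ⟨q, rfl, by rw [h8, h5]⟩
  · have h9 : L.lat q.1.1 r.1.1 := by
      rw [← h5]
      exact hL.lat_symm _ _ h8
    have h10 : IsCand G L r.1.1 q.1.2 := cand_move6 H hL q.2 h9 ha
    refine ⟨⟨(r.1.1, q.1.2), h10⟩, ?_, rfl⟩
    apply Quot.sound
    exact ⟨rfl, Or.inr (hL.lat_symm _ _ h9)⟩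

/-- lateral and upper -/
private theorem tri_lu {G : SimpleGraph V} (H : Loc6 G) {L : Lev V} (hL : Good6 G L)
    {y z : L.Y} {w : (nxt G L).Y} (hz : L.lat y z) (hw : PR G L y w)
    (ha : G.Adj (L.ph z) ((nxt G L).ph w)) : PR G L z w := by
  obtain ⟨p, h1, h2⟩ := hw
  subst h1
  subst h2
  have h3 : IsCand G L z p.1.2 := cand_move6 H hL p.2 hz ha
  refine ⟨⟨(z, p.1.2), h3⟩, ?_, rfl⟩
  apply Quot.sound
  exact ⟨rfl, Or.inr (hL.lat_symm _ _ hz)⟩

/-- upper and upper -/
private theorem tri_uu {G : SimpleGraph V} {L : Lev V}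
    {y : L.Y} {z w : (nxt G L).Y} (hz : PR G L y z) (hw : PR G L y w)
    (ha : G.Adj ((nxt G L).ph z) ((nxt G L).ph w)) : (nxt G L).lat z w := by
  obtain ⟨p, h1, h2⟩ := hz
  obtain ⟨q, h3, h4⟩ := hw
  subst h1
  subst h3
  exact ⟨p, q, rfl, rfl, h2.trans h4.symm, ha⟩

private theorem uniq_uu {G : SimpleGraph V} {L : Lev V}
    {y : L.Y} {z w : (nxt G L).Y} (hz : PR G L y z) (hw : PR G L y w)
    (ha : (nxt G L).ph z = (nxt G L).ph w) : z = w := by
  obtain ⟨p, h1, h2⟩ := hz
  obtain ⟨q, h3, h4⟩ := hw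
  subst h1
  subst h3
  exact Quot.sound ⟨ha, Or.inl (h2.trans h4.symm)⟩

theorem cov_YY6 {G : SimpleGraph V} (H : Loc6 G) (x0 : V) :
    Cov G (YY G x0) (phi G x0) (EE G x0) := by
  have hg : ∀ n, Good6 G (Lv G x0 n) := good6_Lv H x0
  have hsymm : ∀ a b : YY G x0, EE G x0 a b → EE G x0 b a := by
    intro a b h
    cases h with
    | lat h => exact EE.lat ((hg _).lat_symm _ _ h)
    | up h => exact EE.dn h
    | dn h => exact EE.up h
  refine ⟨hsymm, ?_, ?_, ?_, ?_⟩
  · intro a b h
    cases h with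
    | lat h => exact (hg _).lat_adj _ _ h
    | up h => exact (pr_cand h).1
    | dn h => exact (pr_cand h).1.symm
  · rintro ⟨n, y⟩ v hv
    change G.Adj ((Lv G x0 n).ph y) v at hv
    by_cases h1 : v ∈ (Lv G x0 n).dn y
    · cases n with
      | zero => exact absurd h1 (Set.notMem_empty v)
      | succ n =>
        obtain ⟨p, h2, h3⟩ := h1
        exact ⟨⟨n, p.1.1⟩, EE.dn ⟨p, h2, rfl⟩, h3⟩
    · by_cases h2 : ∃ d ∈ (Lv G x0 n).dn y, G.Adj d v
      · obtain ⟨d, h3, h4⟩ := h2
        obtain ⟨z, h5, h6⟩ := (hg n).lat_exists y v d hv h1 h3 h4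
        exact ⟨⟨n, z⟩, EE.lat h5, h6⟩
      · push Not at h2
        let p : Cand G (Lv G x0 n) := ⟨(y, v), hv, h1, h2⟩
        exact ⟨⟨n + 1, Quot.mk _ p⟩, EE.up ⟨p, rfl, rfl⟩, rfl⟩
  · intro a b c hab hac hbc
    cases hab with
    | @lat n y z h =>
      cases hac with
      | @lat _ _ w h' => rw [(hg n).lat_unique _ _ _ h h' hbc]
      | @up _ _ w h' =>
        exfalso
        obtain ⟨d, h1, h2⟩ := lat_adj_dn (hg n) h
        have h3 := (pr_cand h').2.2 d h1
        exact h3 (by
          have h4 : (Lv G x0 n).ph z = (nxt G (Lv G x0 n)).ph w := hbc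
          rw [← h4]
          exact h2)
      | @dn _ w _ h' =>
        exfalso
        have h1 := pr_ph h'
        have h2 := (hg _).lat_not_dn _ _ h
        apply h2
        have h4 : (Lv G x0 _).ph z = (Lv G x0 _).ph w := hbc
        rw [h4]
        exact h1
    | @up n y z h =>
      cases hac with
      | @lat _ _ w h' =>
        exfalso
        obtain ⟨d, h1, h2⟩ := lat_adj_dn (hg n) h'
        have h3 := (pr_cand h).2.2 d h1
        exact h3 (by
          have h4 : (nxt G (Lv G x0 n)).ph z = (Lv G x0 n).ph w := hbc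
          rw [h4]
          exact h2)
      | @up _ _ w h' =>
        have h1 : z = w := uniq_uu h h' hbc
        rw [h1]
      | @dn m w _ h' =>
        exfalso
        have h1 := pr_ph h'
        have h2 := (pr_cand h).2.1
        apply h2
        have h4 : (nxt G (Lv G x0 _)).ph z = (Lv G x0 m).ph w := hbc
        rw [h4]
        exact h1
    | @dn n z y h =>
      cases hac with
      | @lat _ _ w h' =>
        exfalso
        have h1 := pr_ph h
        have h2 := (hg _).lat_not_dn _ _ h'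
        apply h2
        have h4 : (Lv G x0 n).ph z = (Lv G x0 (n + 1)).ph w := hbc
        rw [← h4]
        exact h1
      | @up _ _ w h' =>
        exfalso
        have h1 := pr_ph h
        have h2 := (pr_cand h').2.1
        apply h2
        have h4 : (Lv G x0 n).ph z = (nxt G (Lv G x0 (n + 1))).ph w := hbc
        rw [← h4]
        exact h1
      | @dn _ w _ h' =>
        rcases tri_pp H (hg n) h h' with h1 | h1
        · rw [h1]
        · exfalso
          have h2 := (hg n).lat_adj _ _ h1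
          have h4 : (Lv G x0 n).ph z = (Lv G x0 n).ph w := hbc
          rw [h4] at h2
          exact G.irrefl h2
  · intro a b c hab hac hbc
    cases hab with
    | @lat n y z h =>
      cases hac with
      | @lat _ _ w h' => exact EE.lat ((hg n).lat_tri _ _ _ h h' hbc)
      | @up _ _ w h' => exact EE.up (tri_lu H (hg n) h h' hbc)
      | @dn m w _ h' => exact EE.dn (tri_pl H (hg m) h' h hbc.symm)
    | @up n y z h =>
      cases hac with
      | @lat _ _ w h' => exact EE.dn (tri_lu H (hg n) h' h hbc.symm)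
      | @up _ _ w h' => exact EE.lat (tri_uu h h' hbc)
      | @dn m w _ h' => exact absurd hbc.symm ((pr_cand h).2.2 _ (pr_ph h'))
    | @dn n z y h =>
      cases hac with
      | @lat _ _ w h' => exact EE.up (tri_pl H (hg n) h h' hbc)
      | @up _ _ w h' => exact absurd hbc ((pr_cand h').2.2 _ (pr_ph h))
      | @dn _ w _ h' =>
        rcases tri_pp H (hg n) h h' with h1 | h1
        · exfalso
          subst h1
          exact G.irrefl hbc
        · exact EE.lat h1

end Pool.H90TC
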