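import Pool.Agent.H90.TC.L6.Defs

set_option autoImplicit false

/-!
Proof (compare Pool/Agent/H90/SY/LG/Nxt.lean, the special case without `K4`; many parts can be
copied). `(y,v)` is a candidate if `IsCand G L y v`.

U1 (`cand_move6`). If `(y,v)` is a candidate, `lat y z` and `ph z` is adjacent to `v`, then `(z,v)` is
a candidate. Let `d` be a common element of `dn y` and `dn z` (`lat_common`). `v ∉ dn z`: otherwise
`v`, `d` are both in `dn z`, `v ≠ d`, so they are adjacent (`dn_clique`), but `v` is not adjacent to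
`d ∈ dn y`. Suppose `u ∈ dn z` is adjacent to `v`; `u ≠ d`. In the link of `ph z` there is the
4-cycle `v, ph y, d, u`; `v ≠ d`, `ph y ≠ u` (`lat_not_dn z y`). By `c4` either `v`, `d` adjacent
(excluded) or `ph y`, `u` adjacent; then `u ∈ dn y` by `dn_share`, and `u` is adjacent to `v`:
contradiction.

U2 (`cand_two6`). If `(y,v)` is a candidate, `lat y z`, `lat y w`, and `ph z`, `ph w` are adjacent to
`v`, then `z = w` or `lat z w`. Let `d` be common to `dn y, dn z`, `e` common to `dn y, dn w`. If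
`ph z = ph w` use `lat_unique`. Otherwise it is enough to show that `ph z`, `ph w` are adjacent
(`lat_tri`). If `d ∈ dn w`: `c4` for `v, ph z, d, ph w` in the link of `ph y`. The same if `e ∈ dn z`.
Otherwise `d ≠ e`, they are adjacent, `c5` for `v, ph z, d, e, ph w` in the link of `ph y` (distinct
because of `lat_not_dn`): the chords `v d`, `v e` are excluded (`IsCand`), the chord `ph z, e` gives
`e ∈ dn z` by `dn_share`, the chord `d, ph w` gives `d ∈ dn w`, so the chord is `ph z, ph w`.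

U3 (`mk_eq6`). `Quot.mk p = Quot.mk q ↔ rl p q`: `rl` is reflexive, symmetric and (by U1, U2 applied
to the middle element) transitive.

The fields of `Good6 (nxt L)`, for `y' = [(y,v)]`: `lat_symm`, `lat_adj`, `dn_adj`, `dn_clique`,
`lat_common`, `lat_exists`, `lat_unique`, `lat_not_dn` exactly as in the special case.
* `lat_tri`: `lat y' z'`, `lat y' w'` with images `v; a, b`, `a` adjacent to `b`: representatives
  `(y1,v), (y1,a)` and `(y2,v), (y2,b)`. If `y1 = y2` then `lat z' w'` by definition. Otherwise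
  `lat y1 y2` (U3). In the link of `v`: 4-cycle `a, ph y1, ph y2, b`; `a ≠ ph y2` and `b ≠ ph y1`, since
  `ph y1, ph y2 ∈ dn y'` and `a, b ∉ dn y'` (the field `lat_not_dn` already proved for `nxt L`). By
  `c4`, `a` is adjacent to `ph y2` (or `b` to `ph y1`, symmetric): by U1 `(y2,a)` is a candidate,
  related to `(y1,a)`, so `z' = [(y2,a)]`, `w' = [(y2,b)]`.
* `dn_share`: `lat y' z'`, representatives `(y1,v), (y1,a)`; `u ∈ dn z'`, `u = ph y3`, `(y3,a)` related
  to `(y1,a)`, `u` adjacent to `v`. `y3 = y1`: clear. `lat y1 y3`: by U1 `(y3,v)` is a candidate,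
  related to `(y1,v)`, so `u ∈ dn y'`.
-/

namespace Pool.H90TC

open Pool.H90SY

universe u

variable {V : Type u}

theorem cand_move6 {G : SimpleGraph V} (H : Loc6 G) {L : Lev V} (hL : Good6 G L) {y z : L.Y}
    {v : V} (hc : IsCand G L y v) (hl : L.lat y z) (ha : G.Adj (L.ph z) v) : IsCand G L z v := by
  obtain ⟨d, hdy, hdz⟩ := hL.lat_common y z hl
  have hvd : v ≠ d := fun h => hc.2.1 (h ▸ hdy)
  refine ⟨ha, fun hvz => hc.2.2 d hdy (hL.dn_clique z d v hdz hvz hvd.symm), fun u hu huv => ?_⟩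
  have hud : d ≠ u := fun h => hc.2.2 d hdy (h ▸ huv)
  have hyu : L.ph y ≠ u := by
    intro h
    exact hL.lat_not_dn z y (hL.lat_symm y z hl) (h ▸ hu)
  rcases H.c4 (L.ph z) v (L.ph y) d u ha (hL.lat_adj y z hl).symm (hL.dn_adj z d hdz)
    (hL.dn_adj z u hu) hc.1.symm (hL.dn_adj y d hdy) (hL.dn_clique z d u hdz hu hud) huv hvd hyu
    with h | h
  · exact hc.2.2 d hdy h.symm
  · exact hc.2.2 u (hL.dn_share y z u hl hu h) huv

theorem cand_two6 {G : SimpleGraph V} (H : Loc6 G) {L : Lev V} (hL : Good6 G L) {y z w : L.Y}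
    {v : V} (hc : IsCand G L y v) (hz : L.lat y z) (hw : L.lat y w) (haz : G.Adj (L.ph z) v)
    (haw : G.Adj (L.ph w) v) : z = w ∨ L.lat z w := by
  obtain ⟨d, hdy, hdz⟩ := hL.lat_common y z hz
  obtain ⟨e, hey, hew⟩ := hL.lat_common y w hw
  have hvd : v ≠ d := fun h => hc.2.1 (h ▸ hdy)
  have hve : v ≠ e := fun h => hc.2.1 (h ▸ hey)
  by_cases hzw : L.ph z = L.ph w
  · exact Or.inl (hL.lat_unique y z w hz hw hzw)
  · right
    have hyz := hL.lat_adj y z hz
    have hyw := hL.lat_adj y w hw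
    refine hL.lat_tri y z w hz hw ?_
    by_cases hdw : d ∈ L.dn w
    · rcases H.c4 (L.ph y) v (L.ph z) d (L.ph w) hc.1 hyz (hL.dn_adj y d hdy) hyw haz.symm
        (hL.dn_adj z d hdz) (hL.dn_adj w d hdw).symm haw hvd hzw with h | h
      · exact (hc.2.2 d hdy h.symm).elim
      · exact h
    · by_cases hez : e ∈ L.dn z
      · rcases H.c4 (L.ph y) v (L.ph z) e (L.ph w) hc.1 hyz (hL.dn_adj y e hey) hyw haz.symm
          (hL.dn_adj z e hez) (hL.dn_adj w e hew).symm haw hve hzw with h | h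
        · exact (hc.2.2 e hey h.symm).elim
        · exact h
      · have hde : d ≠ e := fun h => hdw (h ▸ hew)
        rcases H.c5 (L.ph y) v (L.ph z) d e (L.ph w) hc.1 hyz (hL.dn_adj y d hdy)
          (hL.dn_adj y e hey) hyw haz.symm (hL.dn_adj z d hdz) (hL.dn_clique y d e hdy hey hde)
          (hL.dn_adj w e hew).symm haw hvd hve (fun h => hL.lat_not_dn y z hz (h ▸ hey)) hzw
          (fun h => hL.lat_not_dn y w hw (h ▸ hdy)) with h | h | h | h | h
        · exact (hc.2.2 d hdy h.symm).elim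
        · exact (hc.2.2 e hey h.symm).elim
        · exact (hez (hL.dn_share z y e (hL.lat_symm y z hz) hey h)).elim
        · exact h
        · exact (hdw (hL.dn_share w y d (hL.lat_symm y w hw) hdy h.symm)).elim

theorem mk_eq6 {G : SimpleGraph V} (H : Loc6 G) {L : Lev V} (hL : Good6 G L) (p q : Cand G L) :
    Quot.mk (rl G L) p = Quot.mk (rl G L) q ↔ rl G L p q := by
  have he : Equivalence (rl G L) := by
    refine ⟨fun p => ⟨rfl, Or.inl rfl⟩, fun {p q} h => ⟨h.1.symm, ?_⟩, fun {p q r} h h' =>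
      ⟨h.1.trans h'.1, ?_⟩⟩
    · rcases h.2 with h2 | h2
      · exact Or.inl h2.symm
      · exact Or.inr (hL.lat_symm _ _ h2)
    · rcases h.2 with h2 | h2
      · rw [h2]
        exact h'.2
      · rcases h'.2 with h3 | h3
        · rw [← h3]
          exact Or.inr h2
        · exact cand_two6 H hL q.2 (hL.lat_symm _ _ h2) h3 (h.1 ▸ p.2.1) (h'.1 ▸ r.2.1)
  constructor
  · intro h
    exact (he.eqvGen_iff).1 (Quot.eqvGen_exact h)
  · exact fun h => Quot.sound h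

theorem good6_bot {G : SimpleGraph V} (x0 : V) : Good6 G (bot x0) where
  lat_symm _ _ h := h.elim
  lat_adj _ _ h := h.elim
  dn_adj _ _ h := h.elim
  dn_clique _ _ _ h := h.elim
  lat_common _ _ h := h.elim
  lat_exists _ _ _ _ _ h := h.elim
  lat_unique _ _ _ h := h.elim
  lat_not_dn _ _ h := h.elim
  lat_tri _ _ _ h := h.elim
  dn_share _ _ _ h := h.elim

private theorem L6N_not_dn {G : SimpleGraph V} (H : Loc6 G) {L : Lev V} (hL : Good6 G L)
    (y z : (nxt G L).Y) (h : (nxt G L).lat y z) : (nxt G L).ph z ∉ (nxt G L).dn y := by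
  obtain ⟨p, q, rfl, rfl, h1, h2⟩ := h
  rintro ⟨p', hp', h3⟩
  have h3' : L.ph p'.1.1 = q.1.2 := h3
  have hq := q.2
  rw [← h1] at hq
  rcases ((mk_eq6 H hL p' p).1 hp').2 with h | h
  · rw [h] at h3'
    exact G.ne_of_adj hq.1 h3'
  · obtain ⟨d, hd1, hd2⟩ := hL.lat_common _ _ h
    have h4 := hL.dn_adj _ d hd1
    rw [h3'] at h4
    exact hq.2.2 d hd2 h4.symm

theorem good6_nxt {G : SimpleGraph V} (H : Loc6 G) {L : Lev V} (hL : Good6 G L) :
    Good6 G (nxt G L) := by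
  constructor
  · rintro _ _ ⟨p, q, rfl, rfl, h1, h2⟩
    exact ⟨q, p, rfl, rfl, h1.symm, h2.symm⟩
  · rintro _ _ ⟨p, q, rfl, rfl, h1, h2⟩
    exact h2
  · rintro _ _ ⟨p, rfl, rfl⟩
    exact p.2.1.symm
  · rintro y _ _ ⟨p, hp, rfl⟩ ⟨q, hq, rfl⟩ hne
    rcases ((mk_eq6 H hL p q).1 (hp.trans hq.symm)).2 with h | h
    · exact absurd (congrArg L.ph h) hne
    · exact hL.lat_adj _ _ h
  · rintro _ _ ⟨p, q, rfl, rfl, h1, h2⟩
    exact ⟨L.ph p.1.1, ⟨p, rfl, rfl⟩, ⟨q, rfl, congrArg L.ph h1.symm⟩⟩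
  · rintro _ w _ hyw hwn ⟨p, rfl, rfl⟩ hdw
    have hyw' : G.Adj p.1.2 w := hyw
    have hw1 : w ∉ L.dn p.1.1 := fun h => p.2.2.2 w h hyw'.symm
    have hcand : IsCand G L p.1.1 w := by
      refine ⟨hdw, hw1, fun u hu huw => ?_⟩
      obtain ⟨z, hz1, hz2⟩ := hL.lat_exists p.1.1 w u hdw hw1 hu huw
      have hm : IsCand G L z p.1.2 := cand_move6 H hL p.2 hz1 (by rw [hz2]; exact hyw'.symm)
      apply hwn
      refine ⟨⟨(z, p.1.2), hm⟩, Quot.sound ⟨rfl, Or.inr (hL.lat_symm _ _ hz1)⟩, hz2⟩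
    exact ⟨Quot.mk _ ⟨(p.1.1, w), hcand⟩, ⟨p, ⟨(p.1.1, w), hcand⟩, rfl, rfl, rfl, hyw'⟩, rfl⟩
  · rintro y _ _ ⟨p1, q1, hp1, rfl, h1, g1⟩ ⟨p2, q2, hp2, rfl, h2, g2⟩ hph
    apply Quot.sound
    refine ⟨hph, ?_⟩
    rw [← h1, ← h2]
    exact ((mk_eq6 H hL p1 p2).1 (hp1.trans hp2.symm)).2
  · exact L6N_not_dn H hL
  · rintro y _ _ ⟨p1, q1, hp1, rfl, h1, g1⟩ ⟨p2, q2, hp2, rfl, h2, g2⟩ hab
    have hab' : G.Adj q1.1.2 q2.1.2 := hab
    have hr := (mk_eq6 H hL p1 p2).1 (hp1.trans hp2.symm)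
    have hv : p1.1.2 = p2.1.2 := hr.1
    rcases hr.2 with h | h
    · exact ⟨q1, q2, rfl, rfl, (h1.symm.trans h).trans h2, hab'⟩
    · have c1 : IsCand G L p1.1.1 q1.1.2 := by
        rw [h1]
        exact q1.2
      have c2 : IsCand G L p2.1.1 q2.1.2 := by
        rw [h2]
        exact q2.2
      have n1 : q1.1.2 ≠ L.ph p2.1.1 := by
        intro e
        refine L6N_not_dn H hL y (Quot.mk _ q1) ⟨p1, q1, hp1, rfl, h1, g1⟩ ⟨p2, hp2, ?_⟩
        exact e.symm
      have n2 : L.ph p1.1.1 ≠ q2.1.2 := by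
        intro e
        refine L6N_not_dn H hL y (Quot.mk _ q2) ⟨p2, q2, hp2, rfl, h2, g2⟩ ⟨p1, hp1, ?_⟩
        exact e
      have g2' : G.Adj p1.1.2 q2.1.2 := by
        rw [hv]
        exact g2
      have p2a : G.Adj p1.1.2 (L.ph p2.1.1) := by
        rw [hv]
        exact p2.2.1.symm
      rcases H.c4 p1.1.2 q1.1.2 (L.ph p1.1.1) (L.ph p2.1.1) q2.1.2 g1 p1.2.1.symm p2a g2'
        c1.1.symm (hL.lat_adj _ _ h) c2.1 hab'.symm n1 n2 with e | e
      · have c3 : IsCand G L p2.1.1 q1.1.2 := cand_move6 H hL c1 h e.symm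
        refine ⟨⟨(p2.1.1, q1.1.2), c3⟩, q2, Quot.sound ⟨rfl, Or.inr ?_⟩, rfl, h2, hab'⟩
        change L.lat p2.1.1 q1.1.1
        rw [← h1]
        exact hL.lat_symm _ _ h
      · have c3 : IsCand G L p1.1.1 q2.1.2 := cand_move6 H hL c2 (hL.lat_symm _ _ h) e
        refine ⟨q1, ⟨(p1.1.1, q2.1.2), c3⟩, rfl, Quot.sound ⟨rfl, Or.inr ?_⟩, h1.symm, hab'⟩
        change L.lat p1.1.1 q2.1.1
        rw [← h2]
        exact h
  · rintro _ _ u ⟨p, q, rfl, rfl, h1, g1⟩ ⟨r, hr, rfl⟩ hu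
    have hu' : G.Adj p.1.2 (L.ph r.1.1) := hu
    rcases ((mk_eq6 H hL r q).1 hr).2 with h | h
    · refine ⟨p, rfl, ?_⟩
      rw [h, h1]
    · have h' : L.lat p.1.1 r.1.1 := by
        rw [h1]
        exact hL.lat_symm _ _ h
      have c3 : IsCand G L r.1.1 p.1.2 := cand_move6 H hL p.2 h' hu'.symm
      exact ⟨⟨(r.1.1, p.1.2), c3⟩, Quot.sound ⟨rfl, Or.inr (hL.lat_symm _ _ h')⟩, rfl⟩

theorem good6_Lv {G : SimpleGraph V} (H : Loc6 G) (x0 : V) (n : ℕ) : Good6 G (Lv G x0 n) := by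
  induction n with
  | zero => exact good6_bot x0
  | succ n ih => exact good6_nxt H ih

end Pool.H90TC
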